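import Pool.Agent.H639.Mit6
import Pool.Agent.H639.Tool8
import Pool.Agent.H639.Atom2

/-!
The finite subsets of a set in HOD.
-/

set_option autoImplicit false
set_option linter.unusedVariables false

namespace Pool.Agent.H640.OR

open ZFSet Gss969 Pool.Agent.H310.HD Pool.Agent.H639

universe u

/-- `x` is finite. -/
def Fnt (x : ZFSet.{u}) : Prop := {y | y ∈ x}.Finite

/-- The number of elements of `x`. -/
noncomputable def size (x : ZFSet.{u}) : ℕ := {y | y ∈ x}.ncard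

/-- The set of the finite subsets of `A`. -/
noncomputable def FS (A : ZFSet.{u}) : ZFSet.{u} := ZFSet.sep Fnt (powerset A)

theorem mem_FS {A x : ZFSet.{u}} : x ∈ FS A ↔ x ⊆ A ∧ Fnt x := by
  unfold FS
  rw [mem_sep, mem_powerset]

theorem fnt_iff {x : ZFSet.{u}} : Fnt x ↔ ∃ n ∈ om.{u}, ∃ g, IsFunc n x g ∧
    ∀ y ∈ x, ∃ i ∈ n, pair i y ∈ g := by
  constructor
  · intro h
    obtain ⟨s, hs⟩ := h.exists_finset_coe
    have hs' : ∀ y, y ∈ x ↔ y ∈ s.toList := by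
      intro y
      rw [Finset.mem_toList, ← Finset.mem_coe, hs]
      rfl
    obtain ⟨L, hL⟩ : ∃ L, L = s.toList := ⟨_, rfl⟩
    rw [← hL] at hs'
    refine ⟨nt L.length, nt_mem _, gr (nt L.length) (nf fun n => L.getD n ∅), ?_, ?_⟩
    · refine isFunc_gr fun z hz => ?_
      obtain ⟨m, hm, rfl⟩ := mem_nt.1 hz
      rw [nf_nt, hs', List.getD_eq_getElem _ _ hm]
      exact List.getElem_mem hm
    · intro y hy
      obtain ⟨m, hm, rfl⟩ := List.mem_iff_getElem.1 ((hs' y).1 hy)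
      refine ⟨nt m, nt_sub.2 hm, pair_mem_gr.2 ⟨nt_sub.2 hm, ?_⟩⟩
      rw [nf_nt, List.getD_eq_getElem _ _ hm]
  · rintro ⟨n, hn, g, hg, ho⟩
    obtain ⟨k, rfl⟩ := mem_om.1 hn
    refine Set.Finite.subset ((Set.finite_lt_nat k).image fun m => app g (nt m)) fun y hy => ?_
    obtain ⟨i, hi, h⟩ := ho y hy
    obtain ⟨m, hm, rfl⟩ := mem_nt.1 hi
    exact ⟨m, hm, (app_iff hg (nt_sub.2 hm)).1 h⟩

theorem dfn_Fnt (a : ℕ) : Dfn Lvl.{u} (fun v => Fnt (v a)) := by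
  refine Dfn.congr (A := fun v => ∃ n ∈ om.{u}, ∃ g, IsFunc n (v a) g ∧
    ∀ y ∈ v a, ∃ i ∈ n, pair i y ∈ g) ?_ fun v => fnt_iff.symm
  refine Dfn_om (A := fun w v => ∃ n ∈ w, ∃ g, IsFunc n (v a) g ∧
    ∀ y ∈ v a, ∃ i ∈ n, pair i y ∈ g) ?_
  refine Dfn.bex Lvl_sub_Trs _ (Dfn.exfun _ _ (Dfn.ball Lvl_sub_Trs _ (Dfn.bex Lvl_sub_Trs _
    (dfn_pm Lvl_sub_Trs _ _ _))))

theorem HOD_fin {A : ZFSet.{u}} (hA : HOD A) {x : ZFSet.{u}} (hx : x ∈ FS A) : HOD x := by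
  rw [mem_FS] at hx
  obtain ⟨hxA, hf⟩ := hx
  obtain ⟨s, hs⟩ := hf.exists_finset_coe
  have key : ∀ s : Finset ZFSet.{u}, (∀ y ∈ s, y ∈ A) →
      HOD (ZFSet.sep (fun z => z ∈ s) A) := by
    classical
    intro s
    induction s using Finset.induction_on with
    | empty =>
      intro _
      have : ZFSet.sep (fun z => z ∈ (∅ : Finset ZFSet.{u})) A = ∅ := by
        ext z
        simp [mem_sep]
      rw [this]
      exact HOD_empty
    | insert a s ha ih =>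
      intro h
      have h1 := ih fun y hy => h y (Finset.mem_insert_of_mem hy)
      have h2 := HOD_sep4 (Ψ := fun v => v 0 ∈ v 2 ∨ v 0 = v 3) ((Dfn.mem _ _).or (Dfn.eq _ _)) hA
        h1 (hA.mem (h a (Finset.mem_insert_self _ _))) HOD_empty 0 0 0 0 0
      have e : ZFSet.sep (fun ξ => (fun v : ℕ → ZFSet.{u} => v 0 ∈ v 2 ∨ v 0 = v 3)
          (as ξ A (ZFSet.sep (fun z => z ∈ s) A) a ∅ (0 : Ordinal.{u}).toZFSet
          (0 : Ordinal.{u}).toZFSet (0 : Ordinal.{u}).toZFSet (0 : Ordinal.{u}).toZFSet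
          (0 : Ordinal.{u}).toZFSet)) A = ZFSet.sep (fun z => z ∈ insert a s) A := by
        ext z
        rw [mem_sep, mem_sep]
        show z ∈ A ∧ (z ∈ ZFSet.sep (fun z => z ∈ s) A ∨ z = a) ↔ _
        rw [mem_sep, Finset.mem_insert]
        tauto
      rwa [e] at h2
  have hxs : ∀ y, y ∈ s ↔ y ∈ x := fun y => by
    rw [← Finset.mem_coe, hs]
    rfl
  have h1 := key s fun y hy => hxA ((hxs y).1 hy)
  have e : ZFSet.sep (fun z => z ∈ s) A = x := by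
    ext z
    rw [mem_sep, hxs]
    exact ⟨fun h => h.2, fun h => ⟨hxA h, h⟩⟩
  rwa [e] at h1

theorem HOD_FS {A : ZFSet.{u}} (hA : HOD A) : HOD (FS A) := by
  refine HOD_of4 (R := fun y x => (∀ z ∈ y, z ⊆ x 0 ∧ Fnt z) ∧ ∀ z, z ⊆ x 0 → (Fnt z → z ∈ y))
    (x := as A A A A (0 : Ordinal.{u}).toZFSet (0 : Ordinal.{u}).toZFSet
      (0 : Ordinal.{u}).toZFSet (0 : Ordinal.{u}).toZFSet (0 : Ordinal.{u}).toZFSet
      (0 : Ordinal.{u}).toZFSet) ?_ hA hA hA hA (ord10 _ _ _ _ _ _ _ _ _ _) (fun y => ?_)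
    fun z hz => HOD_fin hA hz
  · refine Dfn.and ?_ ?_
    · exact Dfn.ball Lvl_sub_Trs _ ((dfn_sub Lvl_sub_Trs _ _).and (dfn_Fnt _))
    · exact Dfn.allsub subset_rfl _ ((dfn_Fnt _).imp (Dfn.mem _ _))
  · show (∀ z ∈ y, z ⊆ A ∧ Fnt z) ∧ (∀ z, z ⊆ A → (Fnt z → z ∈ y)) ↔ _
    constructor
    · rintro ⟨h1, h2⟩
      ext z
      rw [mem_FS]
      exact ⟨h1 z, fun h => h2 z h.1 h.2⟩
    · rintro rfl
      exact ⟨fun z hz => mem_FS.1 hz, fun z h1 h2 => mem_FS.2 ⟨h1, h2⟩⟩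

theorem FS_mono {A B : ZFSet.{u}} (h : A ⊆ B) {x : ZFSet.{u}} (hx : x ∈ FS A) : x ∈ FS B :=
  mem_FS.2 ⟨fun z hz => h ((mem_FS.1 hx).1 hz), (mem_FS.1 hx).2⟩

theorem insert_mem_FS {A x β : ZFSet.{u}} (hx : x ∈ FS A) (hβ : β ∈ A) : insert β x ∈ FS A := by
  rw [mem_FS] at hx ⊢
  refine ⟨fun z hz => ?_, ?_⟩
  · rcases mem_insert_iff.1 hz with rfl | h
    · exact hβ
    · exact hx.1 h
  · refine (Set.Finite.insert β hx.2).subset fun z hz => ?_
    exact mem_insert_iff.1 hz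

/-- `z` is the set whose elements are `β` and the elements of `x`. -/
def Ins (z β x : ZFSet.{u}) : Prop := (∀ t ∈ z, t ∈ x ∨ t = β) ∧ (∀ t ∈ x, t ∈ z) ∧ β ∈ z

theorem ins_iff {z β x : ZFSet.{u}} : Ins z β x ↔ z = insert β x := by
  constructor
  · rintro ⟨h1, h2, h3⟩
    ext t
    rw [mem_insert_iff]
    constructor
    · intro h
      exact (h1 t h).symm
    · rintro (rfl | h)
      · exact h3
      · exact h2 t h
  · rintro rfl
    refine ⟨fun t ht => (mem_insert_iff.1 ht).symm, fun t ht => mem_insert_iff.2 (Or.inr ht),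
      mem_insert_iff.2 (Or.inl rfl)⟩

theorem dfn_Ins (a b c : ℕ) : Dfn Lvl.{u} (fun v => Ins (v a) (v b) (v c)) := by
  unfold Ins
  repeat' first
    | exact Dfn.mem _ _ | exact Dfn.eq _ _ | refine Dfn.and ?_ ?_ | refine Dfn.or ?_ ?_
    | refine Dfn.ball Lvl_sub_Trs _ ?_

end Pool.Agent.H640.OR
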