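import Pool.Agent.H640.OR.Iter

/-!
Homogeneous sets in HOD for regressive colourings of the finite subsets of an atom.
-/

set_option autoImplicit false
set_option linter.unusedVariables false

namespace Pool.Agent.H640.OR

open ZFSet Gss969 Pool.Agent.H310.HD Pool.Agent.H639

universe u

variable {l : Ordinal.{u}} {S : ZFSet.{u}} {F : ZFSet.{u} → ZFSet.{u}}

/-- The sequence of the iterated functions, as a set. -/
noncomputable def DD (l S : ZFSet.{u}) (F : ZFSet.{u} → ZFSet.{u}) : ZFSet.{u} :=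
  ZFSet.sep (fun t => ∃ n : ℕ, ∃ x ∈ FS S, t = pair (nt n) (pair x (it l S F n x)))
    (prod om (prod (FS S) l))

/-- The condition on `D = v 0` which says that it is the sequence. The parameters are
`PP = v 1, P = v 2, FS S = v 3, S = v 4, gr (FS S) F = v 5, om = v 9, l = v 10`. -/
def RD (v : ℕ → ZFSet.{u}) : Prop :=
  v 0 ⊆ v 1 ∧ ∀ n ∈ v 9, ∀ x ∈ v 3, ∀ τ ∈ v 10, ∀ p ∈ v 2, p = pair x τ →
    (pair n p ∈ v 0 ↔ ((∀ t ∈ n, ¬ t = t) ∧ p ∈ v 5) ∨
      ∃ m ∈ n, (∀ k ∈ n, k ∈ m ∨ k = m) ∧ ∃ E, E ⊆ v 4 ∧ (Stat E (v 10) ∧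
        ∀ β ∈ E, ∃ z ∈ v 3, Ins z β x ∧ ∃ q ∈ v 2, q = pair z τ ∧ pair m q ∈ v 0))

theorem dfn_RD : Dfn Lvl.{u} RD := by
  unfold RD
  refine (dfn_sub Lvl_sub_Trs _ _).and ?_
  refine Dfn.ball Lvl_sub_Trs _ (Dfn.ball Lvl_sub_Trs _ (Dfn.ball Lvl_sub_Trs _
    (Dfn.ball Lvl_sub_Trs _ ((dfn_pair Lvl_sub_Trs _ _ _).imp ((dfn_pm Lvl_sub_Trs _ _ _).iff
      (Dfn.or ?_ ?_))))))
  · exact (Dfn.ball Lvl_sub_Trs _ (Dfn.eq _ _).not).and (Dfn.mem _ _)
  · refine Dfn.bex Lvl_sub_Trs _ ((Dfn.ball Lvl_sub_Trs _ ((Dfn.mem _ _).or (Dfn.eq _ _))).and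
      (Dfn.exsub subset_rfl _ ((dfn_Stat _ _).and (Dfn.ball Lvl_sub_Trs _ (Dfn.bex Lvl_sub_Trs _
        ((dfn_Ins _ _ _).and (Dfn.bex Lvl_sub_Trs _ ((dfn_pair Lvl_sub_Trs _ _ _).and
          (dfn_pm Lvl_sub_Trs _ _ _)))))))))

theorem nt_inj {n m : ℕ} (h : nt.{u} n = nt m) : n = m := by
  rcases lt_trichotomy n m with h1 | h1 | h1
  · exact absurd (h ▸ nt_sub.2 h1) (mem_irrefl _)
  · exact h1
  · exact absurd (h ▸ nt_sub.2 h1) (mem_irrefl _)

theorem mem_DD (hF : ∀ n, Good l.toZFSet S (it l.toZFSet S F n)) {n : ℕ} {p : ZFSet.{u}} :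
    pair (nt n) p ∈ DD l.toZFSet S F ↔ p ∈ gr (FS S) (it l.toZFSet S F n) := by
  unfold DD
  rw [mem_sep, mem_gr]
  constructor
  · rintro ⟨_, n', x, hx, h⟩
    rw [pair_inj] at h
    obtain ⟨h1, h2⟩ := h
    have := nt_inj h1
    subst this
    exact ⟨x, hx, h2.symm⟩
  · rintro ⟨x, hx, rfl⟩
    exact ⟨mem_prod_of (nt_mem n) (mem_prod_of hx ((hF n).mem x hx)), n, x, hx, rfl⟩

theorem HOD_om : HOD om.{u} := HOD_ord Ordinal.omega0

theorem om_eq : om.{u} = Ordinal.omega0.toZFSet := rfl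

theorem HOD_DD (hl : RegUnc l.toZFSet) (hS : Atom l.toZFSet S) (hF : Good l.toZFSet S F) :
    HOD (DD l.toZFSet S F) := by
  have hG := good_it hl hS hF
  have hFS := HOD_FS hS.1
  have hP : HOD (prod (FS S) l.toZFSet) := HOD_prod hFS (HOD_ord l)
  have hPP : HOD (prod om (prod (FS S) l.toZFSet)) := HOD_prod HOD_om hP
  refine HOD_of8 (R := fun y x => RD (fun n => Nat.casesOn n y x))
    (x := an (prod om (prod (FS S) l.toZFSet)) (prod (FS S) l.toZFSet) (FS S) S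
      (gr (FS S) F) S S S Ordinal.omega0.toZFSet l.toZFSet l.toZFSet l.toZFSet l.toZFSet
      l.toZFSet) ?_ (an_hod hPP hP hFS hS.1 hF.hod hS.1 hS.1 hS.1 _ _ _ _ _ _)
    (an_ord _ _ _ _ _ _ _ _ _ _ _ _ _ _) (fun D => ?_) fun z hz => hPP.mem (mem_sep.1 hz).1
  · refine dfn_RD.congr fun v => ?_
    have e : (fun n => Nat.casesOn n (v 0) (fun n => v (n + 1)) : ℕ → ZFSet.{u}) = v := by
      funext n
      cases n <;> rfl
    rw [e]
  · show (D ⊆ prod om (prod (FS S) l.toZFSet) ∧ ∀ n ∈ om, ∀ x ∈ FS S, ∀ τ ∈ l.toZFSet,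
      ∀ p ∈ prod (FS S) l.toZFSet, p = pair x τ →
      (pair n p ∈ D ↔ ((∀ t ∈ n, ¬ t = t) ∧ p ∈ gr (FS S) F) ∨
        ∃ m ∈ n, (∀ k ∈ n, k ∈ m ∨ k = m) ∧ ∃ E, E ⊆ S ∧ (Stat E l.toZFSet ∧
          ∀ β ∈ E, ∃ z ∈ FS S, Ins z β x ∧ ∃ q ∈ prod (FS S) l.toZFSet, q = pair z τ ∧
            pair m q ∈ D))) ↔ _
    have hmax : ∀ (n : ℕ) (m : ZFSet.{u}), m ∈ nt (n + 1) →
        (∀ k ∈ nt (n + 1), k ∈ m ∨ k = m) → m = nt n := by
      intro n m hm h
      obtain ⟨m', hm', rfl⟩ := mem_nt.1 hm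
      rcases h (nt n) (nt_sub.2 (Nat.lt_succ_self n)) with h1 | h1
      · have := nt_sub.1 h1
        omega
      · exact h1.symm
    have key : ∀ D', D' ⊆ prod om (prod (FS S) l.toZFSet) → (∀ n ∈ om, ∀ x ∈ FS S,
        ∀ τ ∈ l.toZFSet, ∀ p ∈ prod (FS S) l.toZFSet, p = pair x τ →
        (pair n p ∈ D' ↔ ((∀ t ∈ n, ¬ t = t) ∧ p ∈ gr (FS S) F) ∨
          ∃ m ∈ n, (∀ k ∈ n, k ∈ m ∨ k = m) ∧ ∃ E, E ⊆ S ∧ (Stat E l.toZFSet ∧
            ∀ β ∈ E, ∃ z ∈ FS S, Ins z β x ∧ ∃ q ∈ prod (FS S) l.toZFSet, q = pair z τ ∧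
              pair m q ∈ D'))) →
        ∀ n : ℕ, ∀ x ∈ FS S, ∀ τ ∈ l.toZFSet, (pair (nt n) (pair x τ) ∈ D' ↔
          pair x τ ∈ gr (FS S) (it l.toZFSet S F n)) := by
      intro D' _ h n
      induction n with
      | zero =>
        intro x hx τ hτ
        rw [h _ (nt_mem 0) x hx τ hτ _ (mem_prod_of hx hτ) rfl]
        constructor
        · rintro (⟨_, h1⟩ | ⟨m, hm, _⟩)
          · exact h1
          · obtain ⟨m', hm', _⟩ := mem_nt.1 hm
            omega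
        · intro h1
          exact Or.inl ⟨fun t ht => by
            obtain ⟨m', hm', _⟩ := mem_nt.1 ht
            omega, h1⟩
      | succ n ih =>
        intro x hx τ hτ
        rw [h _ (nt_mem (n + 1)) x hx τ hτ _ (mem_prod_of hx hτ) rfl]
        have e1 : pair x τ ∈ gr (FS S) (it l.toZFSet S F (n + 1)) ↔
            Stat (lev S (it l.toZFSet S F n) x τ) l.toZFSet := by
          rw [nx_iff hl hS (hG n) hx hτ, pair_mem_gr]
          exact ⟨fun h => h.2.symm, fun h => ⟨hx, h.symm⟩⟩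
        rw [e1, ← stat_lev_iff hx]
        constructor
        · rintro (⟨h1, _⟩ | ⟨m, hm, h1, E, h2, h3, h4⟩)
          · exact absurd rfl (h1 (nt n) (nt_sub.2 (Nat.lt_succ_self n)))
          · have := hmax n m hm h1
            subst this
            refine ⟨E, h2, h3, fun β hβ => ?_⟩
            obtain ⟨z, hz, h5, q, _, rfl, h6⟩ := h4 β hβ
            exact ⟨z, hz, h5, (ih z hz τ hτ).1 h6⟩
        · rintro ⟨E, h2, h3, h4⟩
          refine Or.inr ⟨nt n, nt_sub.2 (Nat.lt_succ_self n), fun k hk => ?_, E, h2, h3,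
            fun β hβ => ?_⟩
          · obtain ⟨k', hk', rfl⟩ := mem_nt.1 hk
            rcases (Nat.lt_succ_iff.1 hk').lt_or_eq with h5 | h5
            · exact Or.inl (nt_sub.2 h5)
            · exact Or.inr (h5 ▸ rfl)
          · obtain ⟨z, hz, h5, h6⟩ := h4 β hβ
            exact ⟨z, hz, h5, _, mem_prod_of hz hτ, rfl, (ih z hz τ hτ).2 h6⟩
    constructor
    · rintro ⟨h1, h2⟩
      have h3 := key D h1 h2
      ext t
      constructor
      · intro ht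
        obtain ⟨n, hn, p, hp, rfl⟩ := mem_prod.1 (h1 ht)
        obtain ⟨x, hx, τ, hτ, rfl⟩ := mem_prod.1 hp
        obtain ⟨k, rfl⟩ := mem_om.1 hn
        rw [mem_DD hG]
        exact (h3 k x hx τ hτ).1 ht
      · intro ht
        obtain ⟨n, hn, p, hp, rfl⟩ := mem_prod.1 (mem_sep.1 ht).1
        obtain ⟨x, hx, τ, hτ, rfl⟩ := mem_prod.1 hp
        obtain ⟨k, rfl⟩ := mem_om.1 hn
        rw [mem_DD hG] at ht
        exact (h3 k x hx τ hτ).2 ht
    · rintro rfl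
      refine ⟨fun t ht => (mem_sep.1 ht).1, ?_⟩
      rintro n hn x hx τ hτ p hp rfl
      obtain ⟨k, rfl⟩ := mem_om.1 hn
      rw [mem_DD hG]
      cases k with
      | zero =>
        constructor
        · intro h1
          exact Or.inl ⟨fun t ht => by
            obtain ⟨m', hm', _⟩ := mem_nt.1 ht
            omega, h1⟩
        · rintro (⟨_, h1⟩ | ⟨m, hm, _⟩)
          · exact h1
          · obtain ⟨m', hm', _⟩ := mem_nt.1 hm
            omega
      | succ n =>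
        have e1 : pair x τ ∈ gr (FS S) (it l.toZFSet S F (n + 1)) ↔
            Stat (lev S (it l.toZFSet S F n) x τ) l.toZFSet := by
          rw [nx_iff hl hS (hG n) hx hτ, pair_mem_gr]
          exact ⟨fun h => h.2.symm, fun h => ⟨hx, h.symm⟩⟩
        rw [e1, ← stat_lev_iff hx]
        constructor
        · rintro ⟨E, h2, h3, h4⟩
          refine Or.inr ⟨nt n, nt_sub.2 (Nat.lt_succ_self n), fun k hk => ?_, E, h2, h3,
            fun β hβ => ?_⟩
          · obtain ⟨k', hk', rfl⟩ := mem_nt.1 hk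
            rcases (Nat.lt_succ_iff.1 hk').lt_or_eq with h5 | h5
            · exact Or.inl (nt_sub.2 h5)
            · exact Or.inr (h5 ▸ rfl)
          · obtain ⟨z, hz, h5, h6⟩ := h4 β hβ
            exact ⟨z, hz, h5, _, mem_prod_of hz hτ, rfl, (mem_DD hG).2 h6⟩
        · rintro (⟨h1, _⟩ | ⟨m, hm, h1, E, h2, h3, h4⟩)
          · exact absurd rfl (h1 (nt n) (nt_sub.2 (Nat.lt_succ_self n)))
          · have := hmax n m hm h1
            subst this
            refine ⟨E, h2, h3, fun β hβ => ?_⟩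
            obtain ⟨z, hz, h5, q, _, rfl, h6⟩ := h4 β hβ
            exact ⟨z, hz, h5, (mem_DD hG).1 h6⟩

end Pool.Agent.H640.OR
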