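import Pool.Agent.H640.OR.Hom

/-!
Homogeneous sets in HOD for regressive colourings of the finite subsets of an atom.
-/

set_option autoImplicit false
set_option linter.unusedVariables false

namespace Pool.Agent.H640.OR

open ZFSet Gss969 Pool.Agent.H310.HD Pool.Agent.H639

universe u

variable {l : Ordinal.{u}} {S : ZFSet.{u}} {F : ZFSet.{u} → ZFSet.{u}}

/-- Remove one element. -/
noncomputable def rem (x a : ZFSet.{u}) : ZFSet.{u} := ZFSet.sep (fun y => ¬ y = a) x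

theorem mem_rem {x a y : ZFSet.{u}} : y ∈ rem x a ↔ y ∈ x ∧ ¬ y = a := mem_sep

theorem insert_rem {x a : ZFSet.{u}} (h : a ∈ x) : insert a (rem x a) = x := by
  ext y
  rw [mem_insert_iff, mem_rem]
  constructor
  · rintro (rfl | h1)
    · exact h
    · exact h1.1
  · intro h1
    by_cases e : y = a
    · exact Or.inl e
    · exact Or.inr ⟨h1, e⟩

theorem rem_eq {x a : ZFSet.{u}} : {y | y ∈ rem x a} = {y | y ∈ x} \ {a} := by
  ext y
  exact mem_rem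

theorem size_rem {x a : ZFSet.{u}} (hx : Fnt x) (h : a ∈ x) {k : ℕ} (hk : size x = k + 1) :
    size (rem x a) = k := by
  unfold size at *
  have h1 := Set.ncard_sdiff_singleton_of_mem (s := {y | y ∈ x}) (a := a) h
  rw [rem_eq, h1, hk]
  rfl

theorem fnt_rem {x a : ZFSet.{u}} (hx : Fnt x) : Fnt (rem x a) := by
  unfold Fnt at *
  rw [rem_eq]
  exact hx.sdiff

theorem size_zero {x : ZFSet.{u}} (hx : Fnt x) (h : size x = 0) : x = ∅ := by
  unfold size at h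
  rw [Set.ncard_eq_zero hx] at h
  ext y
  constructor
  · intro hy
    have : y ∈ ({y | y ∈ x} : Set ZFSet.{u}) := hy
    rw [h] at this
    exact this.elim
  · intro hy
    exact absurd hy (notMem_empty _)

theorem size_succ {x : ZFSet.{u}} {k : ℕ} (h : size x = k + 1) : ∃ a, a ∈ x := by
  unfold size at h
  have : ({y | y ∈ x} : Set ZFSet.{u}).ncard ≠ 0 := by omega
  exact Set.nonempty_of_ncard_ne_zero this

/-- Fodor's lemma for finite sets. -/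
theorem press (hl : RegUnc l.toZFSet) : ∀ (k : ℕ) (T : Set Ordinal.{u}), StatL T l →
    ∀ g : Ordinal.{u} → ZFSet.{u}, (∀ α ∈ T, α < l → Fnt (g α) ∧ size (g α) = k ∧
      g α ⊆ α.toZFSet) → ∃ x, StatL {α | α ∈ T ∧ g α = x} l := by
  intro k
  induction k with
  | zero =>
    intro T hT g hg
    exact ⟨∅, hT.mono fun α hα h => ⟨h, size_zero (hg α h hα).1 (hg α h hα).2.1⟩⟩
  | succ k ih =>
    intro T hT g hg
    have h1 : ∀ α ∈ T, α < l → ∃ β < α, β.toZFSet ∈ g α := by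
      intro α hα hαl
      obtain ⟨h2, h3, h4⟩ := hg α hα hαl
      obtain ⟨a, ha⟩ := size_succ h3
      obtain ⟨β, hβ, rfl⟩ := Ordinal.mem_toZFSet_iff.1 (h4 ha)
      exact ⟨β, hβ, ha⟩
    choose! f hf1 hf2 using h1
    obtain ⟨ξ, hξ, h2⟩ := fodor hl hT (f := f) fun α hα hαl => hf1 α hα hαl
    obtain ⟨x, hx⟩ := ih _ h2 (fun α => rem (g α) ξ.toZFSet) (by
      rintro α ⟨hα, hαξ⟩ hαl
      obtain ⟨h2, h3, h4⟩ := hg α hα hαl
      have h5 := hf2 α hα hαl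
      rw [hαξ] at h5
      exact ⟨fnt_rem h2, size_rem h2 h5 h3, fun z hz => h4 (mem_rem.1 hz).1⟩)
    refine ⟨insert ξ.toZFSet x, hx.mono fun α hαl h => ⟨h.1.1, ?_⟩⟩
    have h5 := hf2 α h.1.1 hαl
    rw [h.1.2] at h5
    rw [← h.2, insert_rem h5]

theorem press' (hl : RegUnc l.toZFSet) {T : Set Ordinal.{u}} (hT : StatL T l)
    {g : Ordinal.{u} → ZFSet.{u}} (hg : ∀ α ∈ T, α < l → Fnt (g α) ∧ g α ⊆ α.toZFSet) :
    ∃ x, StatL {α | α ∈ T ∧ g α = x} l := by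
  obtain ⟨k, hk⟩ := StatL.union_nat hl hT (P := fun k α => size (g α) = k)
    fun α _ _ => ⟨_, rfl⟩
  obtain ⟨x, hx⟩ := press hl k _ hk g fun α hα hαl =>
    ⟨(hg α hα.1 hαl).1, hα.2, (hg α hα.1 hαl).2⟩
  exact ⟨x, hx.mono fun α _ h => ⟨h.1.1, h.2⟩⟩

/-- The homogeneous set. -/
noncomputable def HH (l S : ZFSet.{u}) (F : ZFSet.{u} → ZFSet.{u}) : ZFSet.{u} :=
  ZFSet.sep (fun β => ∀ n : ℕ, ∀ x ∈ FS S, x ⊆ β → it l S F n (insert β x) = it l S F (n + 1) x) S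

theorem mem_HH {l β : ZFSet.{u}} : β ∈ HH l S F ↔ β ∈ S ∧ ∀ n : ℕ, ∀ x ∈ FS S, x ⊆ β →
    it l S F n (insert β x) = it l S F (n + 1) x := mem_sep

/-- The definition of the homogeneous set. -/
def RH (v : ℕ → ZFSet.{u}) : Prop :=
  ∀ n ∈ v 9, ∀ m ∈ n, (∀ k ∈ n, k ∈ m ∨ k = m) → ∀ x ∈ v 4, x ⊆ v 0 → ∀ z ∈ v 4, Ins z (v 0) x →
    ∀ τ ∈ v 10, ∀ p ∈ v 3, p = pair z τ → ∀ q ∈ v 3, q = pair x τ →
      (pair m p ∈ v 2 ↔ pair n q ∈ v 2)

theorem dfn_RH : Dfn Lvl.{u} RH := by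
  unfold RH
  repeat' first
    | exact Dfn.mem _ _ | exact Dfn.eq _ _ | exact dfn_pair Lvl_sub_Trs _ _ _
    | exact dfn_pm Lvl_sub_Trs _ _ _ | exact dfn_sub Lvl_sub_Trs _ _ | exact dfn_Ins _ _ _
    | refine Dfn.or ?_ ?_ | refine Dfn.iff ?_ ?_
    | refine Dfn.ball Lvl_sub_Trs _ ?_ | refine Dfn.imp ?_ ?_

theorem HOD_HH (hl : RegUnc l.toZFSet) (hS : Atom l.toZFSet S) (hF : Good l.toZFSet S F) :
    HOD (HH l.toZFSet S F) := by
  have hG := good_it hl hS hF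
  have hFS := HOD_FS hS.1
  have h := HOD_sep8 (Ψ := RH) dfn_RH (A := S) (p := DD l.toZFSet S F)
    (q := prod (FS S) l.toZFSet) (r := FS S) (s := S) (t := S) (w := S) (z := S) hS.1
    (HOD_DD hl hS hF) (HOD_prod hFS (HOD_ord l)) hFS hS.1 hS.1 hS.1 hS.1 Ordinal.omega0 l 0 0 0
  have e : HH l.toZFSet S F = ZFSet.sep (fun ξ => RH (an ξ S (DD l.toZFSet S F)
      (prod (FS S) l.toZFSet) (FS S) S S S S Ordinal.omega0.toZFSet l.toZFSet
      (0 : Ordinal.{u}).toZFSet (0 : Ordinal.{u}).toZFSet (0 : Ordinal.{u}).toZFSet)) S := by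
    ext β
    rw [mem_HH, mem_sep]
    refine and_congr_right fun hβ => ?_
    show _ ↔ ∀ n ∈ om, ∀ m ∈ n, (∀ k ∈ n, k ∈ m ∨ k = m) → ∀ x ∈ FS S, x ⊆ β → ∀ z ∈ FS S,
      Ins z β x → ∀ τ ∈ l.toZFSet, ∀ p ∈ prod (FS S) l.toZFSet, p = pair z τ →
      ∀ q ∈ prod (FS S) l.toZFSet, q = pair x τ →
      (pair m p ∈ DD l.toZFSet S F ↔ pair n q ∈ DD l.toZFSet S F)
    constructor
    · rintro h n hn m hm hmax x hx hxβ z hz hI τ hτ p _ rfl q _ rfl
      obtain ⟨n, rfl⟩ := mem_om.1 hn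
      obtain ⟨m, hmn, rfl⟩ := mem_nt.1 hm
      have hnm : n = m + 1 := by
        by_contra hcon
        rcases hmax (nt (m + 1)) (nt_sub.2 (by omega)) with h1 | h1
        · have := nt_sub.1 h1
          omega
        · have := nt_inj h1
          omega
      subst hnm
      rw [ins_iff] at hI
      subst hI
      rw [mem_DD hG, mem_DD hG, pair_mem_gr, pair_mem_gr, h m x hx hxβ]
      simp only [hz, hx, true_and]
    · intro h n x hx hxβ
      have hz := insert_mem_FS hx hβ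
      have hτ := (hG n).mem _ hz
      have h1 := h (nt (n + 1)) (nt_mem _) (nt n) (nt_sub.2 (Nat.lt_succ_self n)) (fun k hk => by
        obtain ⟨k', hk', rfl⟩ := mem_nt.1 hk
        rcases (Nat.lt_succ_iff.1 hk').lt_or_eq with h5 | h5
        · exact Or.inl (nt_sub.2 h5)
        · exact Or.inr (h5 ▸ rfl)) x hx hxβ _ hz (ins_iff.2 rfl) _ hτ _ (mem_prod_of hz hτ) rfl _
        (mem_prod_of hx hτ) rfl
      rw [mem_DD hG, mem_DD hG, pair_mem_gr, pair_mem_gr] at h1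
      exact (h1.1 ⟨hz, rfl⟩).2.symm
  rw [e]
  exact h

theorem HH_club (hl : RegUnc l.toZFSet) (hS : Atom l.toZFSet S) (hF : Good l.toZFSet S F) :
    ¬ Stat (dif S (HH l.toZFSet S F)) l.toZFSet := by
  intro h
  rw [stat_iff] at h
  have h1 : ∀ α ∈ {α : Ordinal.{u} | α.toZFSet ∈ dif S (HH l.toZFSet S F)}, α < l →
      ∃ n : ℕ, ∃ x ∈ FS S, x ⊆ α.toZFSet ∧
        ¬ it l.toZFSet S F n (insert α.toZFSet x) = it l.toZFSet S F (n + 1) x := by
    intro α hα _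
    have hα' : α.toZFSet ∈ dif S (HH l.toZFSet S F) := hα
    rw [mem_dif, mem_HH] at hα'
    have h2 := hα'.2
    push Not at h2
    exact h2 hα'.1
  obtain ⟨n, h2⟩ := StatL.union_nat hl h h1
  have h3 : ∀ α ∈ {α : Ordinal.{u} | α ∈ {α : Ordinal.{u} | α.toZFSet ∈ dif S (HH l.toZFSet S F)} ∧
      ∃ x ∈ FS S, x ⊆ α.toZFSet ∧
        ¬ it l.toZFSet S F n (insert α.toZFSet x) = it l.toZFSet S F (n + 1) x}, ∃ x, x ∈ FS S ∧
      x ⊆ α.toZFSet ∧
        ¬ it l.toZFSet S F n (insert α.toZFSet x) = it l.toZFSet S F (n + 1) x := by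
    rintro α ⟨_, x, h4, h5⟩
    exact ⟨x, h4, h5⟩
  choose! g hg1 hg2 hg3 using h3
  obtain ⟨x, hx⟩ := press' hl h2 (g := g) fun α hα _ => ⟨(mem_FS.1 (hg1 α hα)).2, hg2 α hα⟩
  obtain ⟨α₀, _, h5, h6⟩ := statL_nonempty hl hx
  have hxS : x ∈ FS S := h6 ▸ hg1 α₀ h5
  obtain ⟨C, hC, h7⟩ := nx_club hl hS (good_it hl hS hF n) hxS
  obtain ⟨α, _, ⟨h8, h9⟩, h10⟩ := hx C hC.1 hC
  have h11 := hg3 α h8
  rw [h9] at h11
  have hαS : α.toZFSet ∈ S := (mem_dif.1 h8.1).1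
  exact h11 (h7 _ h10 hαS)

theorem exists_top {x : ZFSet.{u}} (hx : x ⊆ l.toZFSet) (hf : Fnt x) {a : ZFSet.{u}} (ha : a ∈ x) :
    ∃ β ∈ x, rem x β ⊆ β := by
  obtain ⟨β, hβ, h⟩ := Set.exists_max_image {y | y ∈ x} rank hf ⟨a, ha⟩
  refine ⟨β, hβ, fun y hy => ?_⟩
  obtain ⟨hy', hne⟩ := mem_rem.1 hy
  have h1 := h y hy'
  obtain ⟨η, _, rfl⟩ := Ordinal.mem_toZFSet_iff.1 (hx hβ)
  obtain ⟨ξ, _, rfl⟩ := Ordinal.mem_toZFSet_iff.1 (hx hy')
  rw [Ordinal.rank_toZFSet, Ordinal.rank_toZFSet] at h1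
  exact tzm.2 (h1.lt_of_ne fun e => hne (e ▸ rfl))

theorem HH_homog (hS : Atom l.toZFSet S) : ∀ (k : ℕ), ∀ x ∈ FS (HH l.toZFSet S F), size x = k →
    ∀ n, it l.toZFSet S F n x = it l.toZFSet S F (n + k) ∅ := by
  intro k
  induction k with
  | zero =>
    intro x hx h n
    rw [size_zero (mem_FS.1 hx).2 h]
    rfl
  | succ k ih =>
    intro x hx h n
    obtain ⟨h1, h2⟩ := mem_FS.1 hx
    obtain ⟨a, ha⟩ := size_succ h
    have hHS : HH l.toZFSet S F ⊆ S := fun z hz => (mem_HH.1 hz).1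
    obtain ⟨β, hβ, h3⟩ := exists_top (fun z hz => hS.2.1 (hHS (h1 hz))) h2 ha
    have h4 : rem x β ∈ FS (HH l.toZFSet S F) :=
      mem_FS.2 ⟨fun z hz => h1 (mem_rem.1 hz).1, fnt_rem h2⟩
    have h5 := (mem_HH.1 (h1 hβ)).2 n (rem x β) (FS_mono hHS h4) h3
    rw [insert_rem hβ] at h5
    rw [h5, ih _ h4 (size_rem h2 hβ h) (n + 1)]
    congr 1
    omega

/-- Every regressive colouring in HOD of the finite subsets of an atom has a stationary homogeneous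
set in HOD; it contains almost all elements of the atom. -/
theorem exists_homog (hl : RegUnc l.toZFSet) (hS : Atom l.toZFSet S) (hF : Good l.toZFSet S F) :
    ∃ H, H ⊆ S ∧ HOD H ∧ Stat H l.toZFSet ∧ ¬ Stat (dif S H) l.toZFSet ∧
      ∀ x ∈ FS H, ∀ y ∈ FS H, size x = size y → F x = F y := by
  have hHS : HH l.toZFSet S F ⊆ S := fun z hz => (mem_HH.1 hz).1
  refine ⟨HH l.toZFSet S F, hHS, HOD_HH hl hS hF, ?_, HH_club hl hS hF, fun x hx y hy e => ?_⟩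
  · by_contra hcon
    have h1 : StatL {α | α.toZFSet ∈ S} l := atom_stat hS
    rcases statL_or hl h1 (fun α => α.toZFSet ∈ HH l.toZFSet S F) with h | h
    · exact hcon (stat_iff.2 (h.mono fun α _ h => h.2))
    · refine HH_club hl hS hF (stat_iff.2 (h.mono fun α _ h => ?_))
      show α.toZFSet ∈ dif S (HH l.toZFSet S F)
      exact mem_dif.2 ⟨h.1, h.2⟩
  · have h1 := HH_homog hS _ x hx rfl 0
    have h2 := HH_homog hS _ y hy rfl 0
    rw [e] at h1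
    exact h1.trans h2.symm

end Pool.Agent.H640.OR
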