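import Pool.Agent.H640.OR.Fin

/-!
Iterated values of a regressive colouring of the finite subsets of an atom.
-/

set_option autoImplicit false
set_option linter.unusedVariables false

namespace Pool.Agent.H640.OR

open ZFSet Gss969 Pool.Agent.H310.HD Pool.Agent.H639

universe u

variable {l : Ordinal.{u}} {S : ZFSet.{u}} {F : ZFSet.{u} → ZFSet.{u}}

/-- The elements `β` of `S` with `F (x ∪ {β}) = τ`. -/
noncomputable def lev (S : ZFSet.{u}) (F : ZFSet.{u} → ZFSet.{u}) (x τ : ZFSet.{u}) : ZFSet.{u} :=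
  ZFSet.sep (fun β => F (insert β x) = τ) S

theorem mem_lev {x τ β : ZFSet.{u}} : β ∈ lev S F x τ ↔ β ∈ S ∧ F (insert β x) = τ := mem_sep

/-- The value of `F (x ∪ {β})` for most `β`. -/
noncomputable def nx (l S : ZFSet.{u}) (F : ZFSet.{u} → ZFSet.{u}) (x : ZFSet.{u}) : ZFSet.{u} :=
  by classical exact if h : ∃ τ ∈ l, Stat (lev S F x τ) l then h.choose else ∅

/-- `F` is a regressive function in HOD on the finite subsets of `S`. -/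
structure Good (l S : ZFSet.{u}) (F : ZFSet.{u} → ZFSet.{u}) : Prop where
  hod : HOD (gr (FS S) F)
  mem : ∀ x ∈ FS S, F x ∈ l
  reg : ∀ x ∈ FS S, ∀ a ∈ x, F x ∈ a

theorem mem_prod_of {a b x y : ZFSet.{u}} (hx : x ∈ a) (hy : y ∈ b) : pair x y ∈ prod a b :=
  pair_mem_prod.2 ⟨hx, hy⟩

theorem HOD_lev (hS : HOD S) (hF : Good l.toZFSet S F) {x τ : ZFSet.{u}} (hx : x ∈ FS S)
    (hτ : HOD τ) : HOD (lev S F x τ) := by
  have h := HOD_sep8 (Ψ := fun v => ∃ z ∈ v 2, Ins z (v 0) (v 4) ∧ pair z (v 5) ∈ v 3)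
    (A := S) (p := FS S) (q := gr (FS S) F) (r := x) (s := τ) (t := S) (w := S) (z := S)
    (Dfn.bex Lvl_sub_Trs _ ((dfn_Ins _ _ _).and (dfn_pm Lvl_sub_Trs _ _ _)))
    hS (HOD_FS hS) hF.hod (HOD_fin hS hx) hτ hS hS hS 0 0 0 0 0
  have e : ∀ β ∈ S, ((∃ z ∈ FS S, Ins z β x ∧ pair z τ ∈ gr (FS S) F) ↔ F (insert β x) = τ) := by
    intro β hβ
    constructor
    · rintro ⟨z, hz, h1, h2⟩
      rw [ins_iff] at h1
      subst h1
      exact (pair_mem_gr.1 h2).2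
    · intro h
      exact ⟨_, insert_mem_FS hx hβ, ins_iff.2 rfl, pair_mem_gr.2 ⟨insert_mem_FS hx hβ, h⟩⟩
  have e2 : lev S F x τ = ZFSet.sep (fun ξ => (fun v : ℕ → ZFSet.{u} => ∃ z ∈ v 2,
      Ins z (v 0) (v 4) ∧ pair z (v 5) ∈ v 3) (an ξ S (FS S) (gr (FS S) F) x τ S S S
      (0 : Ordinal.{u}).toZFSet (0 : Ordinal.{u}).toZFSet (0 : Ordinal.{u}).toZFSet
      (0 : Ordinal.{u}).toZFSet (0 : Ordinal.{u}).toZFSet)) S := by
    ext β
    rw [mem_lev, mem_sep]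
    exact ⟨fun h => ⟨h.1, (e β h.1).2 h.2⟩, fun h => ⟨h.1, (e β h.1).1 h.2⟩⟩
  rw [e2]
  exact h

theorem exists_value (hl : RegUnc l.toZFSet) (hS : Atom l.toZFSet S) (hF : Good l.toZFSet S F)
    {x : ZFSet.{u}} (hx : x ∈ FS S) :
    ∃ τ ∈ l.toZFSet, Stat (lev S F x τ) l.toZFSet ∧ ∀ a ∈ x, τ ∈ a := by
  have h1 : StatL {α | α.toZFSet ∈ S} l := atom_stat hS
  obtain ⟨ξ, hξ, h2⟩ := fodor hl h1 (f := fun α => rank (F (insert α.toZFSet x))) (by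
    intro α hα hαl
    have h3 := hF.reg _ (insert_mem_FS hx hα) α.toZFSet (mem_insert_iff.2 (Or.inl rfl))
    have h4 := rank_lt_of_mem h3
    rwa [Ordinal.rank_toZFSet] at h4)
  have h5 : Stat (lev S F x ξ.toZFSet) l.toZFSet := by
    rw [stat_iff]
    refine h2.mono fun α hα h3 => ?_
    show α.toZFSet ∈ lev S F x ξ.toZFSet
    have h3S : α.toZFSet ∈ S := h3.1
    refine mem_lev.2 ⟨h3S, ?_⟩
    have h4 := hF.mem _ (insert_mem_FS hx h3S)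
    have h5 : (F (insert α.toZFSet x)).IsOrdinal := (isOrdinal_toZFSet l).mem h4
    rw [← h5.toZFSet_rank_eq]
    exact congrArg _ h3.2
  refine ⟨ξ.toZFSet, tzm.2 hξ, h5, fun a ha => ?_⟩
  obtain ⟨β, hβ, h6, h7⟩ := stat_iff.1 h5 l.toZFSet (fun x hx => hx)
    ⟨fun x hx => hx, fun x hx => by
      obtain ⟨γ, hγ, rfl⟩ := Ordinal.mem_toZFSet_iff.1 hx
      exact ⟨_, tz_mem.2 (hl.succ_lt hγ), tz_mem.2 (Order.lt_succ γ)⟩, fun a ha _ _ => ha⟩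
  have h8 := mem_lev.1 (show β.toZFSet ∈ lev S F x ξ.toZFSet from h6)
  rw [← h8.2]
  exact hF.reg _ (insert_mem_FS hx h8.1) a (mem_insert_iff.2 (Or.inr ha))

theorem value_unique (hl : RegUnc l.toZFSet) (hS : Atom l.toZFSet S) (hF : Good l.toZFSet S F)
    {x τ τ' : ZFSet.{u}} (hx : x ∈ FS S) (hτ : τ ∈ l.toZFSet)
    (h : Stat (lev S F x τ) l.toZFSet) (h' : Stat (lev S F x τ') l.toZFSet) : τ = τ' := by
  by_contra hne
  refine hS.2.2.2 (lev S F x τ) (fun z hz => (mem_lev.1 hz).1)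
    (HOD_lev hS.1 hF hx ((HOD_ord l).mem hτ)) ⟨h, stat_mono h' fun z hz => ?_⟩
  rw [mem_dif]
  exact ⟨(mem_lev.1 hz).1, fun h1 => hne ((mem_lev.1 h1).2.symm.trans (mem_lev.1 hz).2)⟩

theorem nx_spec (hl : RegUnc l.toZFSet) (hS : Atom l.toZFSet S) (hF : Good l.toZFSet S F)
    {x : ZFSet.{u}} (hx : x ∈ FS S) : nx l.toZFSet S F x ∈ l.toZFSet ∧
      Stat (lev S F x (nx l.toZFSet S F x)) l.toZFSet := by
  obtain ⟨τ, h1, h2, h3⟩ := exists_value hl hS hF hx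
  have h : ∃ τ ∈ l.toZFSet, Stat (lev S F x τ) l.toZFSet := ⟨τ, h1, h2⟩
  unfold nx
  rw [dif_pos h]
  exact h.choose_spec

theorem nx_iff (hl : RegUnc l.toZFSet) (hS : Atom l.toZFSet S) (hF : Good l.toZFSet S F)
    {x τ : ZFSet.{u}} (hx : x ∈ FS S) (hτ : τ ∈ l.toZFSet) :
    Stat (lev S F x τ) l.toZFSet ↔ τ = nx l.toZFSet S F x := by
  obtain ⟨h1, h2⟩ := nx_spec hl hS hF hx
  constructor
  · intro h
    exact value_unique hl hS hF hx hτ h h2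
  · rintro rfl
    exact h2

/-- The statement `F'(x) = τ` for the next function `F'`. -/
def Nx (v : ℕ → ZFSet.{u}) : Prop :=
  ∃ E, E ⊆ v 5 ∧ (Stat E (v 3) ∧ ∀ β ∈ E, ∃ z ∈ v 2, Ins z β (v 1) ∧ pair z (v 0) ∈ v 4)

theorem dfn_Nx : Dfn Lvl.{u} Nx := by
  unfold Nx
  exact Dfn.exsub subset_rfl _ ((dfn_Stat _ _).and (Dfn.ball Lvl_sub_Trs _ (Dfn.bex Lvl_sub_Trs _
    ((dfn_Ins _ _ _).and (dfn_pm Lvl_sub_Trs _ _ _)))))

theorem stat_lev_iff {x τ : ZFSet.{u}} (hx : x ∈ FS S) : (∃ E, E ⊆ S ∧ (Stat E l.toZFSet ∧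
    ∀ β ∈ E, ∃ z ∈ FS S, Ins z β x ∧ pair z τ ∈ gr (FS S) F)) ↔
    Stat (lev S F x τ) l.toZFSet := by
  constructor
  · rintro ⟨E, h1, h2, h3⟩
    refine stat_mono h2 fun β hβ => mem_lev.2 ⟨h1 hβ, ?_⟩
    obtain ⟨z, hz, h4, h5⟩ := h3 β hβ
    rw [ins_iff] at h4
    subst h4
    exact (pair_mem_gr.1 h5).2
  · intro h
    refine ⟨lev S F x τ, fun z hz => (mem_lev.1 hz).1, h, fun β hβ => ?_⟩
    obtain ⟨h1, h2⟩ := mem_lev.1 hβ
    exact ⟨_, insert_mem_FS hx h1, ins_iff.2 rfl, pair_mem_gr.2 ⟨insert_mem_FS hx h1, h2⟩⟩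

theorem good_nx (hl : RegUnc l.toZFSet) (hS : Atom l.toZFSet S) (hF : Good l.toZFSet S F) :
    Good l.toZFSet S (nx l.toZFSet S F) := by
  refine ⟨?_, fun x hx => (nx_spec hl hS hF hx).1, fun x hx a ha => ?_⟩
  · refine HOD_gr8 (Ψ := Nx) dfn_Nx (A := FS S) (B := l.toZFSet) (p := gr (FS S) F) (q := S)
      (r := S) (s := S) (t := S) (w := S) (HOD_FS hS.1) (HOD_ord l) hF.hod hS.1 hS.1 hS.1 hS.1
      hS.1 0 0 0 0 fun x hx => ⟨(nx_spec hl hS hF hx).1, fun y hy => ?_⟩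
    rw [← nx_iff hl hS hF hx hy]
    exact stat_lev_iff hx
  · obtain ⟨τ, h1, h2, h3⟩ := exists_value hl hS hF hx
    rw [← (nx_iff hl hS hF hx h1).1 h2]
    exact h3 a ha

/-- The iterated functions. -/
noncomputable def it (l S : ZFSet.{u}) (F : ZFSet.{u} → ZFSet.{u}) : ℕ → ZFSet.{u} → ZFSet.{u}
  | 0 => F
  | n + 1 => nx l S (it l S F n)

theorem good_it (hl : RegUnc l.toZFSet) (hS : Atom l.toZFSet S) (hF : Good l.toZFSet S F) (n : ℕ) :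
    Good l.toZFSet S (it l.toZFSet S F n) := by
  induction n with
  | zero => exact hF
  | succ n ih => exact good_nx hl hS ih

/-- Almost all `β ∈ S` have `F (x ∪ {β}) = F' x`. -/
theorem nx_club (hl : RegUnc l.toZFSet) (hS : Atom l.toZFSet S) (hF : Good l.toZFSet S F)
    {x : ZFSet.{u}} (hx : x ∈ FS S) :
    ∃ C, Club C l.toZFSet ∧ ∀ β ∈ C, β ∈ S → F (insert β x) = nx l.toZFSet S F x := by
  obtain ⟨h1, h2⟩ := nx_spec hl hS hF hx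
  obtain ⟨C, hC, h3⟩ := atom_club hl hS (HOD_lev hS.1 hF hx ((HOD_ord l).mem h1))
    ((stat_iff.1 h2).mono fun α _ h => ⟨h, (mem_lev.1 h).1⟩)
  exact ⟨C, hC, fun β hβ hβS => (mem_lev.1 (h3 β hβ hβS)).2⟩

end Pool.Agent.H640.OR
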