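import Pool.Agent.H640.OR.Hom2

/-!
A colouring of pairs in HOD from a system of cofinal functions in HOD.
-/

set_option autoImplicit false
set_option linter.unusedVariables false

namespace Pool.Agent.H640.OR

open ZFSet Gss969 Pool.Agent.H310.HD Pool.Agent.H639

universe u

variable {l δ : Ordinal.{u}} {A : ZFSet.{u}}

/-- `i` is an index such that for some elements `α ∈ β` of `x` the `i`-th element of the cofinal
sequence of `β` is not in `α`. Parameters: `v 0 = i`, `v 1 = x`, `v 4 = Q`, `v 5` the system,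
`v 6 = l`. -/
def KL (i x Q g l : ZFSet.{u}) : Prop :=
  ∃ β ∈ x, ∃ α ∈ x, α ∈ β ∧ ∃ e ∈ Q, pair β e ∈ g ∧ ∃ z ∈ l, pair i z ∈ e ∧ ¬ z ∈ α

theorem dfn_KL (a b c d e : ℕ) : Dfn Lvl.{u} (fun v => KL (v a) (v b) (v c) (v d) (v e)) := by
  unfold KL
  repeat' first
    | exact Dfn.mem _ _ | exact (Dfn.mem _ _).not | exact dfn_pm Lvl_sub_Trs _ _ _
    | refine Dfn.and ?_ ?_ | refine Dfn.bex Lvl_sub_Trs _ ?_

/-- The colour `y` of `x`. -/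
def KC (v : ℕ → ZFSet.{u}) : Prop :=
  (KL (v 0) (v 1) (v 4) (v 5) (v 6) ∧ ∀ j ∈ v 0, ¬ KL j (v 1) (v 4) (v 5) (v 6)) ∨
  ((∀ j ∈ v 3, ¬ KL j (v 1) (v 4) (v 5) (v 6)) ∧ ∀ t ∈ v 0, ¬ t = t)

theorem dfn_KC : Dfn Lvl.{u} KC := by
  unfold KC
  refine Dfn.or ((dfn_KL _ _ _ _ _).and (Dfn.ball Lvl_sub_Trs _ (dfn_KL _ _ _ _ _).not)) ?_
  exact (Dfn.ball Lvl_sub_Trs _ (dfn_KL _ _ _ _ _).not).and (Dfn.ball Lvl_sub_Trs _
    (Dfn.eq _ _).not)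

theorem size_pair {α β : ZFSet.{u}} (h : ¬ α = β) : size {α, β} = 2 := by
  unfold size
  have : {y | y ∈ ({α, β} : ZFSet.{u})} = {α, β} := by
    ext y
    simp
  rw [this, Set.ncard_pair h]

theorem pair_mem_FS {α β H : ZFSet.{u}} (hα : α ∈ H) (hβ : β ∈ H) : {α, β} ∈ FS H := by
  refine mem_FS.2 ⟨fun z hz => ?_, ?_⟩
  · rcases ZFSet.mem_pair.1 hz with rfl | rfl
    · exact hα
    · exact hβ
  · unfold Fnt
    have : {y | y ∈ ({α, β} : ZFSet.{u})} = {α, β} := by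
      ext y
      simp
    rw [this]
    exact Set.toFinite _

/-- `β` is a limit point of `H`. -/
def LimPt (H β : ZFSet.{u}) : Prop := (∃ x ∈ β, x = x) ∧ ∀ α ∈ β, ∃ γ ∈ H, γ ∈ β ∧ α ∈ γ

/-- A ladder system in HOD gives a colouring of the pairs with fewer than `δ` colours without
homogeneous sets containing one of their limit points. -/
theorem exists_ladder (hδ0 : 0 < δ) (hδl : δ < l) (hA : HOD A) (hAl : A ⊆ l.toZFSet)
    (hcov : ∀ β ∈ A, ∃ c < δ, ∃ g, HOD g ∧ Cofi (Ordinal.toZFSet c) β g) :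
    ∃ c, HOD c ∧ IsFunc (FS A) δ.toZFSet c ∧ ∀ H, H ⊆ A → (∃ β ∈ H, LimPt H β) →
      ¬ ∀ x ∈ FS H, ∀ y ∈ FS H, size x = 2 → size y = 2 → app c x = app c y := by
  have hQ : HOD (Ph (prod δ.toZFSet l.toZFSet)) := HOD_Ph (HOD_prod (HOD_ord δ) (HOD_ord l))
  obtain ⟨E, hE, hE2⟩ := HOD_choice (Ψ := fun v => ∃ c ∈ v 11, Cofi c (v 1) (v 0))
    (Dfn.bex Lvl_sub_Trs _ (dfn_Cofi _ _ _)) (A := A) (Q := Ph (prod δ.toZFSet l.toZFSet))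
    (p := A) (q := A) (r := A) (s := A) (t := A) hA hQ hA hA hA hA hA 0 δ 0 0 (by
      intro β hβ
      obtain ⟨c, hc, g, hg, hgc⟩ := hcov β hβ
      refine ⟨g, mem_Ph.2 ⟨fun p hp => ?_, hg⟩, c.toZFSet, ?_, hgc⟩
      · obtain ⟨i, hi, z, hz, rfl⟩ := mem_prod.1 (hgc.1.1 hp)
        exact mem_prod_of ((isOrdinal_toZFSet δ).1.mem_trans hi (tzm.2 hc))
          ((isOrdinal_toZFSet l).1.mem_trans hz (hAl hβ))
      · show c.toZFSet ∈ δ.toZFSet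
        exact tzm.2 hc)
  have hE3 : ∀ β ∈ A, E β ∈ Ph (prod δ.toZFSet l.toZFSet) ∧ ∃ c ∈ δ.toZFSet, Cofi c β (E β) :=
    fun β hβ => ⟨(hE2 β hβ).1, (hE2 β hβ).2⟩
  clear hE2
  let K : ZFSet.{u} → ZFSet.{u} → Prop := fun i x =>
    KL i x (Ph (prod δ.toZFSet l.toZFSet)) (gr A E) l.toZFSet
  have hK : ∀ i, ∀ x ∈ FS A, (K i x ↔ ∃ β ∈ x, ∃ α ∈ x, α ∈ β ∧ ∃ z ∈ l.toZFSet,
      pair i z ∈ E β ∧ ¬ z ∈ α) := by
    intro i x hx
    constructor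
    · rintro ⟨β, hβ, α, hα, h1, e, _, h2, z, hz, h3, h4⟩
      rw [pair_mem_gr] at h2
      obtain ⟨_, rfl⟩ := h2
      exact ⟨β, hβ, α, hα, h1, z, hz, h3, h4⟩
    · rintro ⟨β, hβ, α, hα, h1, z, hz, h3, h4⟩
      have hβA := (mem_FS.1 hx).1 hβ
      exact ⟨β, hβ, α, hα, h1, E β, (hE3 β hβA).1, pair_mem_gr.2 ⟨hβA, rfl⟩, z, hz, h3, h4⟩
  have hmin : ∀ x, (∃ j ∈ δ.toZFSet, K j x) → ∃ i ∈ δ.toZFSet, K i x ∧ ∀ j ∈ i, ¬ K j x := by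
    rintro x ⟨j, hj, hjx⟩
    obtain ⟨η, hη, rfl⟩ := Ordinal.mem_toZFSet_iff.1 hj
    obtain ⟨μ, h1, h2⟩ := WellFounded.has_min (wellFounded_lt (α := Ordinal.{u}))
      {μ | K μ.toZFSet x} ⟨η, hjx⟩
    have h3 : μ ≤ η := not_lt.1 (h2 η hjx)
    refine ⟨μ.toZFSet, tzm.2 (h3.trans_lt hη), h1, fun j hj h4 => ?_⟩
    obtain ⟨ν, hν, rfl⟩ := Ordinal.mem_toZFSet_iff.1 hj
    exact h2 ν h4 hν
  classical
  let c : ZFSet.{u} → ZFSet.{u} := fun x =>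
    if h : ∃ j ∈ δ.toZFSet, K j x then (hmin x h).choose else ∅
  have hc1 : ∀ x, (h : ∃ j ∈ δ.toZFSet, K j x) → c x ∈ δ.toZFSet ∧ K (c x) x ∧
      ∀ j ∈ c x, ¬ K j x := by
    intro x h
    have : c x = (hmin x h).choose := dif_pos h
    rw [this]
    exact (hmin x h).choose_spec
  have h0 : (∅ : ZFSet.{u}) ∈ δ.toZFSet := by
    have := tzm.2 hδ0
    rwa [Ordinal.toZFSet_zero] at this
  have hc2 : ∀ x, (¬ ∃ j ∈ δ.toZFSet, K j x) → c x = ∅ := fun x h => dif_neg h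
  have hcm : ∀ x, c x ∈ δ.toZFSet := by
    intro x
    by_cases h : ∃ j ∈ δ.toZFSet, K j x
    · exact (hc1 x h).1
    · rw [hc2 x h]
      exact h0
  refine ⟨gr (FS A) c, ?_, isFunc_gr fun x _ => hcm x, ?_⟩
  · refine HOD_gr8 (Ψ := KC) dfn_KC (A := FS A) (B := δ.toZFSet)
      (p := Ph (prod δ.toZFSet l.toZFSet)) (q := gr A E) (r := l.toZFSet) (s := A) (t := A)
      (w := A) (HOD_FS hA) (HOD_ord δ) hQ hE (HOD_ord l) hA hA hA 0 0 0 0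
      fun x hx => ⟨hcm x, fun y hy => ?_⟩
    show ((K y x ∧ ∀ j ∈ y, ¬ K j x) ∨ ((∀ j ∈ δ.toZFSet, ¬ K j x) ∧ ∀ t ∈ y, ¬ t = t)) ↔ _
    constructor
    · rintro (⟨h1, h2⟩ | ⟨h1, h2⟩)
      · obtain ⟨h3, h4, h5⟩ := hc1 x ⟨y, hy, h1⟩
        obtain ⟨η, hη, rfl⟩ := Ordinal.mem_toZFSet_iff.1 hy
        obtain ⟨ξ, hξ, h6⟩ := Ordinal.mem_toZFSet_iff.1 h3
        rw [← h6] at h4 h5 ⊢
        rcases lt_trichotomy η ξ with h | h | h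
        · exact absurd h1 (h5 _ (tzm.2 h))
        · rw [h]
        · exact absurd h4 (h2 _ (tzm.2 h))
      · rw [hc2 x (fun ⟨j, hj, h3⟩ => h1 j hj h3)]
        ext t
        exact ⟨fun h => absurd rfl (h2 t h), fun h => absurd h (notMem_empty _)⟩
    · rintro rfl
      by_cases h : ∃ j ∈ δ.toZFSet, K j x
      · exact Or.inl (hc1 x h).2
      · right
        rw [hc2 x h]
        exact ⟨fun j hj h3 => h ⟨j, hj, h3⟩, fun t ht => absurd ht (notMem_empty _)⟩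
  · rintro H hH ⟨β, hβ, ⟨b, hb, _⟩, hlim⟩ hom
    obtain ⟨γ₀, hγ₀, hγ₀β, _⟩ := hlim b hb
    have hβA := hH hβ
    obtain ⟨hEQ, m, hm, hco⟩ := hE3 β hβA
    have hne : ∀ γ, γ ∈ β → ¬ γ = β := fun γ h e => mem_irrefl _ (e ▸ h)
    have hsub : ∀ x ∈ FS H, x ∈ FS A := fun x hx => FS_mono hH hx
    have hcolor : ∀ γ ∈ H, γ ∈ β → ∃ z ∈ l.toZFSet, pair (c {γ, β}) z ∈ E β ∧ ¬ z ∈ γ := by
      intro γ hγ hγβ
      have hx := hsub _ (pair_mem_FS hγ hβ)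
      have h1 : ∃ j ∈ δ.toZFSet, K j {γ, β} := by
        obtain ⟨i, hi, z, hz, h2, h3⟩ := hco.2 γ hγβ
        refine ⟨i, (isOrdinal_toZFSet δ).1.mem_trans hi hm, (hK _ _ hx).2 ⟨β,
          ZFSet.mem_pair.2 (Or.inr rfl), γ, ZFSet.mem_pair.2 (Or.inl rfl), hγβ, z,
          (isOrdinal_toZFSet l).1.mem_trans hz (hAl hβA), h2, fun h4 => mem_asymm h3 h4⟩⟩
      obtain ⟨β', hβ', α', hα', h2, z, hz, h3, h4⟩ := (hK _ _ hx).1 (hc1 _ h1).2.1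
      rcases ZFSet.mem_pair.1 hβ' with rfl | rfl
      · rcases ZFSet.mem_pair.1 hα' with rfl | rfl
        · exact absurd h2 (mem_irrefl _)
        · exact absurd hγβ (mem_asymm h2)
      · rcases ZFSet.mem_pair.1 hα' with rfl | rfl
        · exact ⟨z, hz, h3, h4⟩
        · exact absurd h2 (mem_irrefl _)
    obtain ⟨z₀, hz₀, h1, h2⟩ := hcolor γ₀ hγ₀ hγ₀β
    have hz₀β : z₀ ∈ β := (pair_mem_prod.1 (hco.1.1 h1)).2
    have hi₀ : c {γ₀, β} ∈ m := (pair_mem_prod.1 (hco.1.1 h1)).1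
    obtain ⟨γ, hγ, hγβ, h3⟩ := hlim z₀ hz₀β
    obtain ⟨z, hz, h4, h5⟩ := hcolor γ hγ hγβ
    have e := hom _ (pair_mem_FS hγ₀ hβ) _ (pair_mem_FS hγ hβ) (size_pair (hne _ hγ₀β))
      (size_pair (hne _ hγβ))
    rw [app_gr (hsub _ (pair_mem_FS hγ₀ hβ)), app_gr (hsub _ (pair_mem_FS hγ hβ))] at e
    rw [← e] at h4
    have h6 := (hco.1.2 _ hi₀).unique h1 h4
    subst h6
    exact h5 h3

end Pool.Agent.H640.OR
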